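import Mathlib
import Pool.Agent.PCap704.Final

open MeasureTheory Set
open scoped EuclideanGeometry

namespace Pool.Agent.Results.MP_576c25_an.Triangles

/-- The `p`-capacity of a subset `K` of the plane (the plane is `ℂ`). -/
noncomputable def pcap (p : ℝ) (K : Set ℂ) : ℝ :=
  sInf {c : ℝ | ∃ u : ℂ → ℝ, ContDiff ℝ 1 u ∧ HasCompactSupport u ∧
    (∃ U : Set ℂ, IsOpen U ∧ K ⊆ U ∧ ∀ x ∈ U, 1 ≤ u x) ∧
    c = ∫ z : ℂ, ‖fderiv ℝ u z‖ ^ p}

/-- For `1 < p < 2` and a nondegenerate triangle `A B C` of perimeter `L`, the `p`-capacity of the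
triangle is at least that of any segment `E F` with `2 |EF| = L`, provided one of the following
holds: the triangle is not obtuse; it is isosceles; its longest side is at most `0.47 L`; or every
side `s` and every angle `θ` adjacent to it satisfy `L/4 ≤ s + (L/2π) θ ≤ 3L/4`. -/
theorem result (p : ℝ) (hp1 : 1 < p) (hp2 : p < 2) (A B C : ℂ)
    (hnc : ¬ Collinear ℝ {A, B, C}) (L : ℝ) (hL : L = dist A B + dist B C + dist C A)
    (E F : ℂ) (hEF : 2 * dist E F = L)
    (h : (∠ B A C ≤ Real.pi / 2 ∧ ∠ C B A ≤ Real.pi / 2 ∧ ∠ A C B ≤ Real.pi / 2) ∨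
      (dist A B = dist C A ∨ dist A B = dist B C ∨ dist B C = dist C A) ∨
      (dist A B ≤ 0.47 * L ∧ dist B C ≤ 0.47 * L ∧ dist C A ≤ 0.47 * L) ∨
      (∀ x ∈ ({(dist A B, ∠ B A C), (dist C A, ∠ B A C), (dist A B, ∠ C B A), (dist B C, ∠ C B A),
        (dist B C, ∠ A C B), (dist C A, ∠ A C B)} : Set (ℝ × ℝ)),
        L / 4 ≤ x.1 + L / (2 * Real.pi) * x.2 ∧ x.1 + L / (2 * Real.pi) * x.2 ≤ 3 * L / 4)) :
    pcap p (segment ℝ E F) ≤ pcap p (convexHull ℝ {A, B, C}) := by
  have hp : 0 < p := by linarith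
  rcases h with ⟨h1, h2, h3⟩ | h | ⟨h1, h2, h3⟩ | h
  · exact PCap704.tri_nonobtuse p hp A B C hnc E F L hL hEF h1 h2 h3
  · rcases h with h | h | h
    · exact PCap704.tri_isosceles p hp A B C hnc E F L hL hEF h
    · -- apex `B`
      have e : ({B, C, A} : Set ℂ) = {A, B, C} := by
        ext z; simp only [mem_insert_iff, mem_singleton_iff]; tauto
      rw [← e]
      exact PCap704.tri_isosceles p hp B C A (by rw [e]; exact hnc) E F L (by rw [hL]; ring) hEF
        h.symm
    · -- apex `C`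
      have e : ({C, A, B} : Set ℂ) = {A, B, C} := by
        ext z; simp only [mem_insert_iff, mem_singleton_iff]; tauto
      rw [← e]
      exact PCap704.tri_isosceles p hp C A B (by rw [e]; exact hnc) E F L (by rw [hL]; ring) hEF
        h.symm
  · exact PCap704.tri_long p hp A B C hnc E F L hL hEF h1 h2 h3
  · exact PCap704.tri_general p hp A B C hnc E F L hL hEF
      (h (dist A B, ∠ B A C) (by simp)) (h (dist C A, ∠ B A C) (by simp))
      (h (dist A B, ∠ C B A) (by simp)) (h (dist B C, ∠ C B A) (by simp))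
      (h (dist B C, ∠ A C B) (by simp)) (h (dist C A, ∠ A C B) (by simp))

end Pool.Agent.Results.MP_576c25_an.Triangles
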